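import Mathlib

set_option autoImplicit false

namespace Pool.Agent.Results.MP_6d7a61_nt.Adm

open Matrix Polynomial IntermediateField

/-- An integer vector viewed as a real vector. -/
def re {n : ℕ} (q : Fin n → ℤ) : Fin n → ℝ := fun j => q j

def Liou {m n : ℕ} (A : Matrix (Fin m) (Fin n) ℝ) : Prop :=
  (∀ (q : Fin n → ℤ) (p : Fin m → ℤ), (q, p) ≠ 0 → A *ᵥ re q ≠ re p) ∧
    ∀ N : ℕ, ∃ (p : Fin m → ℤ) (q : Fin n → ℤ), 2 ≤ ‖re q‖ ∧ ‖A *ᵥ re q - re p‖ < (‖re q‖ ^ N)⁻¹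

def NC {X : Type} [TopologicalSpace X] (g : X → ℝ) : Prop :=
  ∀ U, IsOpen U → U.Nonempty → ¬∃ c, ∀ x ∈ U, g x = c

def Good (m n : ℕ) : Prop :=
  ∃ f : (Fin m → Fin n → ℝ) → Matrix (Fin m) (Fin n) ℝ, Continuous f ∧
    (∀ (R : Matrix (Fin m) (Fin m) ℚ) (S : Matrix (Fin n) (Fin n) ℚ) (T : Matrix (Fin m) (Fin n) ℚ),
      IsUnit R → IsUnit S → ∀ i j, NC fun A =>
        (R.map ((↑) : ℚ → ℝ) * f A * S.map ((↑) : ℚ → ℝ) + T.map ((↑) : ℚ → ℝ)) i j) ∧
    (¬∃ Ω, (interior Ω).Nonempty ∧ ∃ (p : Fin m → ℤ) (q : Fin n → ℤ), q ≠ 0 ∧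
      ∀ A ∈ Ω, f A *ᵥ re q = re p) ∧
    ∀ A, ¬Liou (f A)

lemma alg (d : ℕ) : ∃ θ : ℝ, |θ| ≤ 2 ∧
    (∀ e ≤ d, ∀ z : Fin e → ℚ, ∑ k, z k * θ ^ k.val = 0 → z = 0) ∧
    ∃ E : ℕ, ∀ e ≤ d, ∀ (z : Fin e → ℤ) (H : ℝ), z ≠ 0 → (∀ k, |(z k : ℝ)| ≤ H) →
      1 ≤ |∑ k, z k * θ ^ k.val| * (e * 2 ^ e * H) ^ E := by
  classical
  obtain ⟨D, hd, hD⟩ := Nat.exists_infinite_primes d
  let θ : ℝ := 2 ^ (D : ℝ)⁻¹
  have hθ : θ ^ D = 2 := Real.rpow_inv_natCast_pow (by norm_num) hD.ne_zero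
  have le2 : ∀ x : ℝ, 0 ≤ x → x ^ D = 2 → x ≤ 2 := fun x h0 h => by
    by_contra c
    have := le_self_pow₀ (show 1 ≤ x by linarith) hD.ne_zero
    linarith
  have irr : Irreducible (X ^ D - C (2 : ℚ)) := X_pow_sub_C_irreducible_of_prime hD fun b hb => by
    have := congrArg (padicValRat 2) hb
    rw [padicValRat.pow, show (2 : ℚ) = (2 : ℕ) by norm_num, padicValRat.self one_lt_two] at this
    have := Int.eq_one_of_mul_eq_one_right (by positivity) this
    exact hD.one_lt.ne' (by exact_mod_cast this)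
  have mp : minpoly ℚ θ = X ^ D - C 2 := (minpoly.eq_of_irreducible_of_monic irr (by simp [hθ])
    (monic_X_pow_sub_C _ hD.ne_zero)).symm
  have li : ∀ e ≤ d, ∀ z : Fin e → ℚ, ∑ k, z k * θ ^ k.val = 0 → z = 0 := fun e he z hz => by
    have h := linearIndependent_pow (K := ℚ) θ
    have hl : e ≤ (minpoly ℚ θ).natDegree := by rw [mp, natDegree_X_pow_sub_C]; omega
    have := Fintype.linearIndependent_iff.1 (h.comp _ (Fin.castLE_injective hl)) z
      (by simpa [Rat.smul_def] using hz)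
    exact funext this
  have hi : IsIntegral ℚ θ := .of_pow hD.pos (by rw [hθ]; exact isIntegral_algebraMap (x := 2))
  have := adjoin.finiteDimensional hi
  let g := AdjoinSimple.gen ℚ θ
  have hg : g ^ D = 2 := Subtype.ext hθ
  let σ : ℚ⟮θ⟯ →ₐ[ℚ] ℂ := (Complex.ofRealAm.restrictScalars ℚ).comp ℚ⟮θ⟯.val
  refine ⟨θ, le2 _ (abs_nonneg _) (by rw [← abs_pow, hθ, abs_two]), li,
    (Finset.univ.erase σ).card, fun e he z H hz hH => ?_⟩
  let x : ℚ⟮θ⟯ := ∑ k, z k * g ^ k.val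
  have hx : (x : ℝ) = ∑ k, z k * θ ^ k.val := by simp [x, g]
  have x0 : x ≠ 0 := fun c => hz (funext fun k => by
    have := li e he (fun k => z k) (by simpa [c] using hx.symm)
    simpa using congrFun this k)
  have xi : IsIntegral ℤ x := IsIntegral.sum _ fun k _ => (isIntegral_algebraMap (x := z k)).mul
    (IsIntegral.pow (.of_pow hD.pos (by rw [hg]; exact isIntegral_algebraMap (x := 2))) _)
  obtain ⟨y, hy⟩ := IsIntegrallyClosed.isIntegral_iff.1 (Algebra.isIntegral_norm ℚ xi)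
  have y0 : y ≠ 0 := by
    rintro rfl
    exact Algebra.norm_ne_zero_iff.2 x0 (hy.symm.trans (map_zero _))
  have h1 := congrArg norm (Algebra.norm_eq_prod_embeddings ℚ ℂ x)
  rw [← hy, ← Finset.mul_prod_erase _ _ (Finset.mem_univ σ), norm_mul, norm_prod] at h1
  have h2 : ‖σ x‖ = |∑ k, z k * θ ^ k.val| := by rw [← hx]; simp [σ]; rfl
  have h3 : (1 : ℝ) ≤ ‖algebraMap ℚ ℂ (algebraMap ℤ ℚ y)‖ := by
    simp only [algebraMap_int_eq, eq_intCast, map_intCast, Complex.norm_intCast]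
    exact_mod_cast Int.one_le_abs y0
  rw [h1, h2] at h3
  refine h3.trans (mul_le_mul_of_nonneg_left ?_ (abs_nonneg _))
  refine (Finset.prod_le_prod (fun _ _ => norm_nonneg _) fun τ _ => ?_).trans_eq
    (Finset.prod_const _)
  have h4 : ‖τ g‖ ≤ 2 := le2 _ (norm_nonneg _) (by
    rw [← norm_pow, ← map_pow, hg, map_ofNat]; simp)
  simp only [x, map_sum, map_mul, map_intCast, map_pow]
  refine (norm_sum_le _ _).trans ((Finset.sum_le_card_nsmul _ _ (2 ^ e * H) fun k _ => ?_).trans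
    (by simp [mul_assoc]))
  rw [norm_mul, norm_pow, Complex.norm_intCast, mul_comm]
  exact mul_le_mul ((pow_le_pow_left₀ (norm_nonneg _) h4 _).trans
    (pow_le_pow_right₀ one_le_two k.2.le)) (hH k) (abs_nonneg _) (by positivity)

theorem pos (m n : ℕ) : Good (m + 2) (n + 1) := by
  obtain ⟨θ, hθ, li, E, hE⟩ := alg (m + n + 3)
  let B : Matrix (Fin (m + 2)) (Fin (n + 1)) ℝ := of fun i j => if i = 1 then θ ^ (j.val + 2) else 0
  let W : Matrix (Fin (m + 2)) (Fin (n + 1)) ℝ := vecMulVec (θ ^ ·.val) (θ ^ ·.val)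
  have key : ∀ (t : ℝ) (p : Fin (m + 2) → ℤ) (q : Fin (n + 1) → ℤ),
      ∑ k : Fin (n + 3), (Fin.cons (-p 1) (Fin.cons (p 0) q) : Fin (n + 3) → ℤ) k * θ ^ k.val =
      ((B + t • W) *ᵥ re q - re p) 1 - θ * ((B + t • W) *ᵥ re q - re p) 0 := fun t p q => by
    rw [Fin.sum_univ_succ, Fin.sum_univ_succ]
    simp [B, W, re, mulVec, dotProduct, vecMulVec, add_mul, Finset.sum_add_distrib, mul_sub,
      Finset.mul_sum, mul_assoc, mul_comm, mul_left_comm, pow_succ]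
    ring
  have nz : ∀ (p : Fin (m + 2) → ℤ) (q : Fin (n + 1) → ℤ), q ≠ 0 →
      (Fin.cons (-p 1) (Fin.cons (p 0) q) : Fin (n + 3) → ℤ) ≠ 0 := fun p q h c =>
    h (funext fun j => congrFun c j.succ.succ)
  refine ⟨fun A => B + A 0 0 • W, by fun_prop, fun R S T hR hS i j U hU ⟨A, hA⟩ ⟨c, hc⟩ => ?_,
    fun ⟨Ω, ⟨A, hA⟩, p, q, hq, h⟩ => ?_, fun A ⟨_, h⟩ => ?_⟩
  · have a : ∑ k, (R i k : ℝ) * θ ^ k.val ≠ 0 := fun c =>
      (linearIndependent_rows_iff_isUnit.2 hR).ne_zero i (li _ (by omega) _ c)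
    have b : ∑ k, (S k j : ℝ) * θ ^ k.val ≠ 0 := fun c =>
      (linearIndependent_cols_iff_isUnit.2 hS).ne_zero j (li _ (by omega) _ c)
    have e : (R.map ((↑) : ℚ → ℝ) * W * S.map ((↑) : ℚ → ℝ)) i j =
        (∑ k, (R i k : ℝ) * θ ^ k.val) * ∑ k, (S k j : ℝ) * θ ^ k.val := by
      simp only [W, mul_apply, map_apply, vecMulVec_apply, Finset.sum_mul, Finset.mul_sum]
      exact Finset.sum_congr rfl fun _ _ => Finset.sum_congr rfl fun _ _ => by ring
    obtain ⟨ε, h0, hε⟩ := Metric.isOpen_iff.1 hU A hA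
    have h1 := hc A hA
    have h2 := hc (A + fun _ _ => ε / 2) (hε (by
      rw [mem_ball_iff_norm, add_sub_cancel_left, pi_norm_const, pi_norm_const,
        Real.norm_of_nonneg (by positivity)]; linarith))
    simp only [Matrix.mul_add, Matrix.add_mul, Matrix.mul_smul, Matrix.smul_mul, Matrix.add_apply,
      Matrix.smul_apply, e, smul_eq_mul, Pi.add_apply] at h1 h2
    exact mul_ne_zero (half_pos h0).ne' (mul_ne_zero a b) (by linarith)
  · have := hE _ (by omega) _ _ (nz p q hq) fun k => Finset.single_le_sum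
      (f := fun k => |((Fin.cons (-p 1) (Fin.cons (p 0) q) : Fin (n + 3) → ℤ) k : ℝ)|)
      (fun _ _ => abs_nonneg _) (Finset.mem_univ k)
    rw [key (A 0 0), h A (interior_subset hA)] at this
    norm_num at this
  · let L := LinearMap.toContinuousLinearMap (B + A 0 0 • W).mulVecLin
    obtain ⟨k, hk⟩ := pow_unbounded_of_one_lt
      (3 * ((n + 3 : ℕ) * 2 ^ (n + 3) * (‖L‖ + 1)) ^ E) (one_lt_two (α := ℝ))
    obtain ⟨p, q, h2, h3⟩ := h (E + k)
    have hq : q ≠ 0 := by rintro rfl; norm_num [show re (0 : Fin (n + 1) → ℤ) = 0 by ext; simp [re]] at h2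
    have hp : ‖re p‖ ≤ (‖L‖ + 1) * ‖re q‖ := by
      have a : ‖(B + A 0 0 • W) *ᵥ re q‖ ≤ _ := L.le_opNorm (re q)
      have b := norm_sub_norm_le (re p) ((B + A 0 0 • W) *ᵥ re q)
      rw [norm_sub_rev] at b
      have := inv_le_one_of_one_le₀ (one_le_pow₀ (n := E + k) (show 1 ≤ ‖re q‖ by linarith))
      linarith
    have := hE (n + 3) (by omega) _ ((‖L‖ + 1) * ‖re q‖) (nz p q hq) fun k => by
      refine Fin.cases ?_ (Fin.cases ?_ fun j => ?_) k
      · simpa [re] using (norm_le_pi_norm (re p) 1).trans hp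
      · simpa [re] using (norm_le_pi_norm (re p) 0).trans hp
      · exact (norm_le_pi_norm (re q) j).trans (le_mul_of_one_le_left (norm_nonneg _) (by simp))
    rw [key (A 0 0), ← mul_assoc, mul_pow] at this
    have a := norm_le_pi_norm ((B + A 0 0 • W) *ᵥ re q - re p) 0
    have b := norm_le_pi_norm ((B + A 0 0 • W) *ᵥ re q - re p) 1
    generalize (B + A 0 0 • W) *ᵥ re q - re p = v at *
    have c : |v 1 - θ * v 0| ≤ 3 * (‖re q‖ ^ (E + k))⁻¹ := by
      refine (abs_sub _ _).trans ?_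
      rw [abs_mul]
      have := mul_le_mul hθ a (abs_nonneg _) zero_le_two
      rw [Real.norm_eq_abs] at b this
      linarith
    have d := pow_le_pow_left₀ zero_le_two h2 k
    generalize ((n + 3 : ℕ) * 2 ^ (n + 3) * (‖L‖ + 1)) ^ E = M at *
    have q0 : 0 < ‖re q‖ := by linarith
    have hM : 0 ≤ M * ‖re q‖ ^ E := by
      by_contra c
      nlinarith [abs_nonneg (v 1 - θ * v 0)]
    have e := this.trans (mul_le_mul_of_nonneg_right c hM)
    rw [pow_add] at e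
    field_simp at e
    linarith

theorem neg (n : ℕ) : ¬Good 1 (n + 1) := by
  rintro ⟨f, hf, h1, h2, h3⟩
  have c : ∀ q : Fin (n + 1) → ℤ, Continuous fun A => f A *ᵥ re q := fun q => by fun_prop
  have d1 := dense_iInter_of_isOpen (f := fun x : {q : Fin (n + 1) → ℤ // q ≠ 0} × (Fin 1 → ℤ) =>
    {A | f A *ᵥ re x.1.1 = re x.2}ᶜ) (fun x => (isClosed_eq (c _) continuous_const).isOpen_compl)
    fun x => interior_eq_empty_iff_dense_compl.1 (Set.not_nonempty_iff_eq_empty.1 fun h =>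
      h2 ⟨_, h, x.2, x.1.1, x.1.2, fun _ h => h⟩)
  have o2 : ∀ N : ℕ, IsOpen {A | ∃ (p : Fin 1 → ℤ) (q : Fin (n + 1) → ℤ),
      2 ≤ ‖re q‖ ∧ ‖f A *ᵥ re q - re p‖ < (‖re q‖ ^ N)⁻¹} := fun N => by
    simp only [Set.ofPred_exists, ← exists_prop]
    exact isOpen_iUnion fun p => isOpen_iUnion fun q => isOpen_iUnion fun _ =>
      isOpen_lt ((c q).sub continuous_const).norm continuous_const
  have d2 := dense_iInter_of_isOpen o2 fun N => Metric.dense_iff.2 fun A r hr => by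
    have := h1 1 1 0 isUnit_one isUnit_one 0 0 _ Metric.isOpen_ball ⟨A, Metric.mem_ball_self hr⟩
    simp only [Matrix.map_one _ Rat.cast_zero Rat.cast_one, Matrix.one_mul, Matrix.mul_one,
      Matrix.add_apply, map_apply, Matrix.zero_apply, Rat.cast_zero, add_zero, not_exists,
      not_forall] at this
    obtain ⟨x, hx, ne⟩ := this (f A 0 0)
    obtain ⟨a, ha, b, hb, lt⟩ : ∃ a ∈ Metric.ball A r, ∃ b ∈ Metric.ball A r, f a 0 0 < f b 0 0 := by
      rcases lt_or_gt_of_ne ne with h | h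
      · exact ⟨x, hx, A, Metric.mem_ball_self hr, h⟩
      · exact ⟨A, Metric.mem_ball_self hr, x, hx, h⟩
    obtain ⟨s, s1, s2⟩ := exists_rat_btwn lt
    obtain ⟨y, hy, e⟩ := (convex_ball A r).isPreconnected.intermediate_value ha hb
      (f := fun A => f A 0 0) (by fun_prop) ⟨s1.le, s2.le⟩
    have hq : 2 ≤ ‖re (Pi.single 0 (2 * s.den) : Fin (n + 1) → ℤ)‖ := by
      refine le_trans ?_ (norm_le_pi_norm _ 0)
      have : (1 : ℝ) ≤ s.den := by exact_mod_cast s.pos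
      simpa [re]
    refine ⟨y, hy, fun _ => 2 * s.num, _, hq, lt_of_eq_of_lt (norm_eq_zero.2 ?_) (by positivity)⟩
    ext i
    rw [Subsingleton.elim i 0]
    simp only at e
    simp [re, mulVec, dotProduct, Pi.single_apply, e, Rat.cast_def]
    field_simp
    ring
  obtain ⟨A, a, b⟩ := (Dense.inter_of_Gδ (.iInter_of_isOpen fun x =>
    (isClosed_eq (c _) continuous_const).isOpen_compl) (.iInter_of_isOpen o2) d1 d2).nonempty
  rw [Set.mem_iInter] at a b
  refine h3 A ⟨fun q p h e => ?_, b⟩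
  by_cases k : q = 0
  · subst k
    refine h (Prod.ext rfl (funext fun i => ?_))
    simpa [re, mulVec, dotProduct, eq_comm] using congrFun e i
  · exact a (⟨q, k⟩, p) e

theorem result (m n : ℕ) (hm : 0 < m) (hn : 0 < n) : Good m n ↔ 2 ≤ m := by
  obtain ⟨n, rfl⟩ := Nat.exists_eq_succ_of_ne_zero hn.ne'
  refine ⟨fun h => ?_, fun h => ?_⟩
  · by_contra c
    obtain rfl : m = 1 := by omega
    exact neg n h
  · obtain ⟨m, rfl⟩ := Nat.exists_eq_add_of_le' h
    exact pos m n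

end Pool.Agent.Results.MP_6d7a61_nt.Adm
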